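import Pool.Agent.H90.LC.Targets

/-! Row CRT of lcl_modules (board of helper90, proof by helper6). -/

set_option autoImplicit false

namespace Pool.Agent.H6.LCL

open Finset Pool.Agent.H44.MS Pool.Agent.H90.LC

/-- Row CRT. -/
theorem pf_CRT : T_CRT := by
  classical
  intro y Y B f hAtt
  obtain ⟨hf, hinj⟩ := hAtt
  -- the index set consists of primes
  set t : Finset ℕ := insert 2 (P3 y ∪ (Sur y B).image f) with ht
  set e : ℕ → ℕ := fun i => if i = 2 then 3 else if i ≤ y then kk B i else 2 with he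
  have hprime : ∀ i ∈ t, i.Prime := by
    intro i hi
    rw [ht, mem_insert, mem_union] at hi
    rcases hi with rfl | hi | hi
    · exact Nat.prime_two
    · exact (mem_filter.1 hi).2.1
    · obtain ⟨x, hx, rfl⟩ := mem_image.1 hi
      exact (hf x hx).1
  have hinv : ∀ i : ℕ, ∃ b : ℕ, i.Prime → i ≠ 2 → 4 * b ≡ 1 [MOD i ^ kk B i] := by
    intro i
    by_cases hi : i.Prime ∧ i ≠ 2
    · have hk : 1 < i ^ kk B i := by
        refine Nat.one_lt_pow (by unfold kk; omega) hi.1.one_lt
      have hc : Nat.Coprime 4 (i ^ kk B i) := by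
        refine Nat.Coprime.pow_right _ ?_
        have : Nat.Coprime 2 i := (Nat.coprime_primes Nat.prime_two hi.1).2 (Ne.symm hi.2)
        exact Nat.Coprime.pow_left 2 this
      obtain ⟨b, hb⟩ := Nat.exists_mul_mod_eq_one_of_coprime hc hk
      refine ⟨b, fun _ _ => ?_⟩
      show 4 * b % _ = 1 % _
      rw [Nat.mod_eq_of_lt hk]
      exact hb.2
    · exact ⟨0, fun h1 h2 => absurd ⟨h1, h2⟩ hi⟩
  choose inv hinv using hinv
  have hg : ∀ i : ℕ, ∃ x : ℕ, i ∈ (Sur y B).image f → x ∈ Sur y B ∧ f x = i := by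
    intro i
    by_cases hi : i ∈ (Sur y B).image f
    · obtain ⟨x, hx, hxi⟩ := mem_image.1 hi
      exact ⟨x, fun _ => ⟨hx, hxi⟩⟩
    · exact ⟨0, fun h => absurd h hi⟩
  choose g hg using hg
  obtain ⟨a, ha⟩ := Nat.chineseRemainderOfFinset
    (fun i => if i = 2 then 3 else if i ≤ y then inv i else (g i) ^ 2 + i)
    (fun i => i ^ e i) t (fun i hi => by
      have := (hprime i hi).pos
      positivity) (by
      intro i hi j hj hij
      exact Nat.Coprime.pow _ _ ((Nat.coprime_primes (hprime i hi) (hprime j hj)).2 hij))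
  refine ⟨a, fun n hn => ⟨?_, ?_, ?_⟩⟩
  · have h2 : (2 : ℕ) ∈ t := by rw [ht]; exact mem_insert_self _ _
    have h := ha 2 h2
    simp only [he, if_true] at h
    have hd : 2 ^ 3 ∣ MM y B f := by
      unfold MM
      exact Dvd.dvd.mul_right (Dvd.dvd.mul_right (by norm_num) _) _
    have h3 : n ≡ 3 [MOD 2 ^ 3] := (Nat.ModEq.of_dvd hd hn).trans h
    exact h3
  · intro p hp
    have hpt : p ∈ t := by
      rw [ht]
      exact mem_insert_of_mem (mem_union_left _ hp)
    obtain ⟨hp1, hp2, hp3⟩ := mem_filter.1 hp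
    have hpy : p ≤ y := (mem_Icc.1 hp1).2
    have hp_ne : p ≠ 2 := by
      rintro rfl
      omega
    have h := ha p hpt
    simp only [he, if_neg hp_ne, if_pos hpy] at h
    have hd : p ^ kk B p ∣ MM y B f := by
      unfold MM
      exact Dvd.dvd.mul_right (Dvd.dvd.mul_left (dvd_prod_of_mem (fun p => p ^ kk B p) hp) _) _
    have h3 : n ≡ inv p [MOD p ^ kk B p] := (Nat.ModEq.of_dvd hd hn).trans h
    exact (Nat.ModEq.mul_left 4 h3).trans (hinv p hp2 hp_ne)
  · intro x hx
    have hxi : f x ∈ (Sur y B).image f := mem_image_of_mem f hx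
    have hpt : f x ∈ t := by
      rw [ht]
      exact mem_insert_of_mem (mem_union_right _ hxi)
    obtain ⟨hp1, hp2, hp3, -⟩ := hf x hx
    have hp_ne : f x ≠ 2 := by omega
    have hpy : ¬ f x ≤ y := by omega
    have h := ha (f x) hpt
    simp only [he, if_neg hp_ne, if_neg hpy] at h
    obtain ⟨hg1, hg2⟩ := hg (f x) hxi
    have hgx : g (f x) = x := hinj hg1 hx hg2
    rw [hgx] at h
    have hd : f x ^ 2 ∣ MM y B f := by
      unfold MM
      exact Dvd.dvd.mul_left (dvd_prod_of_mem (fun x => f x ^ 2) hx) _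
    exact (Nat.ModEq.of_dvd hd hn).trans h

end Pool.Agent.H6.LCL
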