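import Pool.Agent.H90.LC.Targets

/-! Row SIZ of lcl_modules (board of helper90, proof by helper6). -/

set_option autoImplicit false

namespace Pool.Agent.H6.LCL

open Finset Pool.Agent.H44.MS Pool.Agent.H90.LC

/-- Chebyshev: `π(y) log y ≤ 5 y`. -/
theorem pi_log_le (y : ℕ) (hy : 2 ≤ y) :
    (((range (y + 1)).filter Nat.Prime).card : ℝ) * Real.log y ≤ 5 * y := by
  have hyR : (2 : ℝ) ≤ y := by exact_mod_cast hy
  have h1 : (1 : ℝ) < y := by linarith
  have h := Chebyshev.pi_le_log4_mul_div h1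
  rw [Nat.floor_natCast] at h
  have hcard : (Nat.primeCounting y) = ((range (y + 1)).filter Nat.Prime).card := by
    rw [Nat.primeCounting, Nat.primeCounting', Nat.count_eq_card_filter_range]
  rw [hcard] at h
  have hlog : 0 < Real.log y := Real.log_pos h1
  have hsq : Real.log (√(y : ℝ)) = Real.log y / 2 := Real.log_sqrt (by linarith)
  rw [hsq] at h
  have h2 : (((range (y + 1)).filter Nat.Prime).card : ℝ) * Real.log y ≤
      (Real.log 4 * y / (Real.log y / 2) + √(y : ℝ)) * Real.log y :=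
    mul_le_mul_of_nonneg_right h hlog.le
  have h3 : (Real.log 4 * y / (Real.log y / 2) + √(y : ℝ)) * Real.log y =
      2 * Real.log 4 * y + √(y : ℝ) * Real.log y := by
    field_simp
  have h4 : √(y : ℝ) * Real.log y ≤ 2 * y := by
    have h5 : Real.log y = 2 * Real.log (√(y : ℝ)) := by rw [hsq]; ring
    have h6 : Real.log (√(y : ℝ)) ≤ √(y : ℝ) := by
      have := Real.log_le_sub_one_of_pos (show (0 : ℝ) < √(y : ℝ) by positivity)
      linarith
    have h7 : √(y : ℝ) * √(y : ℝ) = y := Real.mul_self_sqrt (by linarith)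
    have h8 : 0 ≤ √(y : ℝ) := Real.sqrt_nonneg _
    rw [h5]
    nlinarith
  have h9 : Real.log 4 < 1.5 := by
    have : Real.log 4 = 2 * Real.log 2 := by
      rw [show (4 : ℝ) = 2 ^ 2 by norm_num, Real.log_pow]
      norm_num
    rw [this]
    have := Real.log_two_lt_d9
    linarith
  have hy0 : (0 : ℝ) < y := by linarith
  nlinarith

/-- Row SIZ. -/
theorem pf_SIZ : T_SIZ := by
  classical
  refine ⟨60, by norm_num, ?_⟩
  intro y A B f hy hA hB hBy hAtt
  obtain ⟨hf, hinj⟩ := hAtt
  have hyR : (2 : ℝ) ≤ y := by exact_mod_cast hy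
  have hy0 : (0 : ℝ) < y := by linarith
  have hAR : (1 : ℝ) ≤ A := by exact_mod_cast hA
  have hBR : (1 : ℝ) ≤ B := by exact_mod_cast hB
  have hlogy : 0 ≤ Real.log y := Real.log_nonneg (by linarith)
  have hlog2 : Real.log 2 ≤ Real.log y := Real.log_le_log (by norm_num) hyR
  have hlog4 : Real.log 4 = 2 * Real.log 2 := by
    rw [show (4 : ℝ) = 2 ^ 2 by norm_num, Real.log_pow]
    norm_num
  have hP : ∀ p ∈ P3 y, 0 < p := fun p hp => (mem_filter.1 hp).2.1.pos
  have hS : ∀ x ∈ Sur y B, 0 < f x := fun x hx => (hf x hx).1.pos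
  -- the first product
  have e1 : ∀ p ∈ P3 y, Real.log ((p : ℝ) ^ kk B p) ≤ 7 * Real.log y := by
    intro p hp
    obtain ⟨hp1, hp2, hp3⟩ := mem_filter.1 hp
    have hpy : p ≤ y := (mem_Icc.1 hp1).2
    have hp0 : (0 : ℝ) < p := by exact_mod_cast hp2.pos
    have h1 : p ^ Nat.log p (4 * B ^ 2) ≤ 4 * B ^ 2 :=
      Nat.pow_log_le_self _ (by positivity)
    have h2 : ((p : ℝ) ^ Nat.log p (4 * B ^ 2)) ≤ 4 * (B : ℝ) ^ 2 := by exact_mod_cast h1
    have h3 : Real.log ((p : ℝ) ^ Nat.log p (4 * B ^ 2)) ≤ Real.log (4 * (B : ℝ) ^ 2) :=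
      Real.log_le_log (by positivity) h2
    have h4 : Real.log (4 * (B : ℝ) ^ 2) = Real.log 4 + 2 * Real.log B := by
      rw [Real.log_mul (by norm_num) (by positivity), Real.log_pow]
      norm_num
    have h5 : Real.log B ≤ 2 * Real.log y := by
      have : (B : ℝ) ≤ (y : ℝ) ^ 2 := by exact_mod_cast hBy
      have h6 := Real.log_le_log (by linarith) this
      rw [Real.log_pow] at h6
      exact_mod_cast h6
    have h6 : Real.log p ≤ Real.log y := Real.log_le_log hp0 (by exact_mod_cast hpy)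
    unfold kk
    rw [pow_succ, Real.log_mul (by positivity) (by positivity)]
    linarith
  have e2 : Real.log (∏ p ∈ P3 y, (p : ℝ) ^ kk B p) ≤ 35 * y := by
    rw [Real.log_prod (fun p hp => by
      have : (0 : ℝ) < p := by exact_mod_cast hP p hp
      positivity)]
    have hsub : P3 y ⊆ (range (y + 1)).filter Nat.Prime := by
      intro p hp
      obtain ⟨hp1, hp2, hp3⟩ := mem_filter.1 hp
      rw [mem_filter, mem_range]
      exact ⟨by have := (mem_Icc.1 hp1).2; omega, hp2⟩
    calc ∑ p ∈ P3 y, Real.log ((p : ℝ) ^ kk B p) ≤ ∑ _p ∈ P3 y, 7 * Real.log y :=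
          sum_le_sum e1
      _ = (P3 y).card * (7 * Real.log y) := by rw [sum_const, nsmul_eq_mul]
      _ ≤ ((range (y + 1)).filter Nat.Prime).card * (7 * Real.log y) := by
          have : ((P3 y).card : ℝ) ≤ ((range (y + 1)).filter Nat.Prime).card := by
            exact_mod_cast card_le_card hsub
          exact mul_le_mul_of_nonneg_right this (by positivity)
      _ = 7 * (((range (y + 1)).filter Nat.Prime).card * Real.log y) := by ring
      _ ≤ 7 * (5 * y) := by
          have := pi_log_le y hy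
          linarith
      _ = 35 * y := by ring
  -- the second product
  have e3 : ∏ x ∈ Sur y B, f x ≤ 4 ^ (A * y) := by
    have h1 : ∏ x ∈ Sur y B, f x = ∏ q ∈ (Sur y B).image f, q := by
      rw [prod_image (fun a ha b hb h => hinj ha hb h)]
    rw [h1]
    have h2 : (Sur y B).image f ⊆ (range (A * y + 1)).filter Nat.Prime := by
      intro q hq
      obtain ⟨x, hx, rfl⟩ := mem_image.1 hq
      obtain ⟨hp1, hp2, hp3, hp4⟩ := hf x hx
      rw [mem_filter, mem_range]
      exact ⟨by omega, hp1⟩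
    have h3 : ∏ q ∈ (Sur y B).image f, q ≤ primorial (A * y) := by
      unfold primorial
      refine prod_le_prod_of_subset_of_one_le' h2 ?_
      intro q hq _
      exact (mem_filter.1 hq).2.pos
    exact h3.trans (primorial_le_four_pow _)
  have e4 : Real.log (∏ x ∈ Sur y B, (f x : ℝ) ^ 2) ≤ 6 * (A * y) := by
    have h1 : ∏ x ∈ Sur y B, (f x : ℝ) ^ 2 = (∏ x ∈ Sur y B, (f x : ℝ)) ^ 2 := by
      rw [prod_pow]
    have h2 : ∏ x ∈ Sur y B, (f x : ℝ) ≤ (4 : ℝ) ^ (A * y) := by exact_mod_cast e3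
    have h3 : 0 < ∏ x ∈ Sur y B, (f x : ℝ) := prod_pos fun x hx => by exact_mod_cast hS x hx
    have h4 := Real.log_le_log h3 h2
    rw [Real.log_pow] at h4
    rw [h1, Real.log_pow]
    push_cast at h4 ⊢
    have h5 : Real.log 2 ≤ 1 := by
      have := Real.log_two_lt_d9
      linarith
    have h6 : (0 : ℝ) ≤ A * y := by positivity
    nlinarith
  have hMM : ((MM y B f : ℕ) : ℝ) = 8 * (∏ p ∈ P3 y, (p : ℝ) ^ kk B p) *
      ∏ x ∈ Sur y B, (f x : ℝ) ^ 2 := by
    unfold MM
    push_cast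
    rfl
  have q1 : 0 < ∏ p ∈ P3 y, (p : ℝ) ^ kk B p := prod_pos fun p hp => by
    have : (0 : ℝ) < p := by exact_mod_cast hP p hp
    positivity
  have q2 : 0 < ∏ x ∈ Sur y B, (f x : ℝ) ^ 2 := prod_pos fun x hx => by
    have : (0 : ℝ) < f x := by exact_mod_cast hS x hx
    positivity
  rw [hMM, Real.log_mul (by positivity) q2.ne', Real.log_mul (by norm_num) q1.ne']
  have h8 : Real.log 8 ≤ 3 := by
    rw [show (8 : ℝ) = 2 ^ 3 by norm_num, Real.log_pow]
    have := Real.log_two_lt_d9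
    push_cast
    linarith
  have h9 : (y : ℝ) ≤ A * y := by nlinarith
  nlinarith

end Pool.Agent.H6.LCL
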