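import Pool.Agent.H90.LC.Targets

/-!
# Row SQF: squarefree numbers in arithmetic progressions
-/

set_option autoImplicit false

namespace Pool.Agent.H6.LCL

open Finset Pool.Agent.H44.MS Pool.Agent.H90.LC

/-- The number of `j ≤ J` in one class mod `q`. -/
private lemma card_class (J q a M : ℕ) (hc : Nat.Coprime q M) :
    ((Icc 1 J).filter (fun j => q ∣ a + j * M)).card ≤ J / q + 1 := by
  have h : ((Icc 1 J).filter (fun j => q ∣ a + j * M)).card ≤ (range (J / q + 1)).card := by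
    apply card_le_card_of_injOn (fun j => j / q)
    · intro j hj
      simp only [coe_filter, mem_Icc, Set.mem_ofPred_eq] at hj
      simp only [coe_range, Set.mem_Iio]
      exact Nat.lt_succ_of_le (Nat.div_le_div_right hj.1.2)
    · intro j hj i hi hji
      simp only [coe_filter, mem_Icc, Set.mem_ofPred_eq] at hj hi
      have h1 : a + j * M ≡ a + i * M [MOD q] :=
        ((Nat.modEq_zero_iff_dvd.2 hj.2).trans (Nat.modEq_zero_iff_dvd.2 hi.2).symm)
      have h2 : j * M ≡ i * M [MOD q] := Nat.ModEq.add_left_cancel' a h1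
      have h3 : j ≡ i [MOD q] := Nat.ModEq.cancel_right_of_coprime hc h2
      have h4 : j % q = i % q := h3
      have h5 : j / q = i / q := hji
      rw [← Nat.div_add_mod j q, ← Nat.div_add_mod i q, h4, h5]
  simpa using h

private lemma sum_sq (N : ℕ) : ∑ k ∈ Icc 5 N, (1 : ℝ) / (k : ℝ) ^ 2 ≤ 1 / 4 := by
  have key : ∀ N : ℕ, 4 ≤ N → ∑ k ∈ Icc 5 N, (1 : ℝ) / (k : ℝ) ^ 2 ≤ 1 / 4 - 1 / (N : ℝ) := by
    intro N hN
    induction N, hN using Nat.le_induction with
    | base => norm_num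
    | succ n hn ih =>
      rw [Finset.sum_Icc_succ_top (by omega)]
      have hn' : (4 : ℝ) ≤ n := by exact_mod_cast hn
      have h1 : (1 : ℝ) / ((n + 1 : ℕ) : ℝ) ^ 2 ≤ 1 / (n : ℝ) - 1 / ((n + 1 : ℕ) : ℝ) := by
        push_cast
        rw [div_sub_div _ _ (by positivity) (by positivity), div_le_div_iff₀ (by positivity)
          (by positivity)]
        nlinarith
      linarith
  rcases le_or_gt 4 N with h | h
  · have := key N h
    have h2 : (0 : ℝ) ≤ 1 / (N : ℝ) := by positivity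
    linarith
  · rw [Icc_eq_empty (by omega)]
    norm_num

theorem pf_SQF : T_SQF := by
  classical
  refine ⟨17, by norm_num, ?_⟩
  intro M a h6 hM hns
  by_contra hcon
  push Not at hcon
  have hM6 : 6 ≤ M := Nat.le_of_dvd hM h6
  set a' := a % M with ha'
  have ha'M : a' < M := Nat.mod_lt _ hM
  have hcover : Icc 1 (16 * M) ⊆ ((Icc 5 (5 * M)).filter (fun k => Nat.Coprime k M)).biUnion
      (fun k => (Icc 1 (16 * M)).filter (fun j => k ^ 2 ∣ a' + j * M)) := by
    intro j hj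
    rw [mem_Icc] at hj
    have hcl : a' + j * M ≡ a [MOD M] := by
      have h1 : a' ≡ a [MOD M] := Nat.mod_modEq a M
      have h2 : j * M ≡ 0 [MOD M] := Nat.modEq_zero_iff_dvd.2 (dvd_mul_left _ _)
      simpa using h1.add h2
    have hlow : M ≤ a' + j * M := by nlinarith [hj.1]
    have hup : a' + j * M ≤ 17 * M ^ 2 := by nlinarith [hj.2]
    have hnsq := hcon (a' + j * M) hlow hup hcl
    rw [Nat.squarefree_iff_prime_squarefree] at hnsq
    push Not at hnsq
    obtain ⟨p, hp, hpd⟩ := hnsq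
    have hpd' : p ^ 2 ∣ a' + j * M := by rw [sq]; exact hpd
    have hpM : ¬ p ∣ M := fun h => hns _ hcl p hp h hpd'
    have hcop : Nat.Coprime p M := (Nat.Prime.coprime_iff_not_dvd hp).2 hpM
    have h5 : 5 ≤ p := by
      by_contra hlt
      have h2 : p ≠ 2 := by
        rintro rfl
        exact hpM ((by norm_num : 2 ∣ 6).trans h6)
      have h3 : p ≠ 3 := by
        rintro rfl
        exact hpM ((by norm_num : 3 ∣ 6).trans h6)
      have h4 : p ≠ 4 := by
        rintro rfl
        revert hp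
        norm_num
      have := hp.two_le
      omega
    have hle : p ≤ 5 * M := by
      have h1 : p ^ 2 ≤ a' + j * M := Nat.le_of_dvd (by omega) hpd'
      by_contra hgt
      have h2 : 5 * M < p := by omega
      nlinarith
    rw [mem_biUnion]
    refine ⟨p, ?_, ?_⟩
    · rw [mem_filter, mem_Icc]; exact ⟨⟨h5, hle⟩, hcop⟩
    · rw [mem_filter, mem_Icc]; exact ⟨hj, hpd'⟩
  have h1 := (card_le_card hcover).trans card_biUnion_le
  have h2 : ∑ k ∈ (Icc 5 (5 * M)).filter (fun k => Nat.Coprime k M),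
      ((Icc 1 (16 * M)).filter (fun j => k ^ 2 ∣ a' + j * M)).card ≤
      ∑ k ∈ (Icc 5 (5 * M)).filter (fun k => Nat.Coprime k M), (16 * M / k ^ 2 + 1) := by
    apply sum_le_sum
    intro k hk
    rw [mem_filter, mem_Icc] at hk
    exact card_class _ _ _ _ (Nat.Coprime.pow_left 2 hk.2)
  have h3 : ∑ k ∈ (Icc 5 (5 * M)).filter (fun k => Nat.Coprime k M), (16 * M / k ^ 2 + 1) ≤
      ∑ k ∈ Icc 5 (5 * M), (16 * M / k ^ 2 + 1) :=
    sum_le_sum_of_subset (filter_subset _ _)
  have h4 : 16 * M ≤ ∑ k ∈ Icc 5 (5 * M), (16 * M / k ^ 2 + 1) := by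
    have : (Icc 1 (16 * M)).card = 16 * M := by simp
    omega
  have h5 : ((16 * M : ℕ) : ℝ) ≤ ((∑ k ∈ Icc 5 (5 * M), (16 * M / k ^ 2 + 1) : ℕ) : ℝ) := by
    exact_mod_cast h4
  have h6' : ((∑ k ∈ Icc 5 (5 * M), (16 * M / k ^ 2 + 1) : ℕ) : ℝ) ≤
      16 * M * ∑ k ∈ Icc 5 (5 * M), (1 : ℝ) / (k : ℝ) ^ 2 + 5 * M := by
    push_cast
    rw [sum_add_distrib, mul_sum]
    apply add_le_add
    · apply sum_le_sum
      intro k _
      have := @Nat.cast_div_le ℝ _ _ _ (16 * M) (k ^ 2)
      push_cast at this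
      rw [mul_one_div]
      exact this
    · rw [sum_const, nsmul_eq_mul, mul_one, Nat.card_Icc]
      have : 5 * M + 1 - 5 ≤ 5 * M := by omega
      exact_mod_cast this
  have h7 := sum_sq (5 * M)
  have hM' : (6 : ℝ) ≤ M := by exact_mod_cast hM6
  have h8 : 16 * (M : ℝ) * ∑ k ∈ Icc 5 (5 * M), (1 : ℝ) / (k : ℝ) ^ 2 ≤ 16 * M * (1 / 4) :=
    mul_le_mul_of_nonneg_left h7 (by positivity)
  push_cast at h5
  push_cast at h6'
  linarith

end Pool.Agent.H6.LCL
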